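import Mathlib
import Pool.Agent.Y552.CT.Stm2

/-!
# Project CT2: extending an equivariant functional to an affine cocycle
-/

set_option autoImplicit false

namespace Pool.Agent.Y888.CT2

open Pool.Agent.Y552.CT
open scoped commutatorElement

universe u

section

variable {G : Type u} [Group G]

/-- additive and equivariant functions on `H`, equal to `F` on `A` -/
structure Ad (X : G →* ℂ) (A H : Subgroup G) (F b : G → ℂ) : Prop where
  add : ∀ x ∈ H, ∀ y ∈ H, b (x * y) = b x + b y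
  eqv : ∀ (g : G), ∀ x ∈ H, b (g * x * g⁻¹) = X g * b x
  ext : ∀ a ∈ A, b a = F a

variable {X : G →* ℂ} {A H N D : Subgroup G} {F b : G → ℂ}

theorem Ad.one (h : Ad X A H F b) : b 1 = 0 := by
  have h1 := h.add 1 H.one_mem 1 H.one_mem
  rw [mul_one] at h1
  simpa using h1

theorem Ad.inv (h : Ad X A H F b) {x : G} (hx : x ∈ H) : b x⁻¹ = -b x := by
  have h1 := h.add x hx x⁻¹ (H.inv_mem hx)
  rw [mul_inv_cancel, h.one] at h1
  exact eq_neg_of_add_eq_zero_right h1.symm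

/-- the series -/
def LL (A N D : Subgroup G) : ℕ → Subgroup G
  | 0 => D
  | i + 1 => A ⊔ ⁅LL A N D i, N⁆

theorem LL_succ (i : ℕ) : LL A N D (i + 1) = A ⊔ ⁅LL A N D i, N⁆ := rfl

theorem LL_normal (hA : A.Normal) (hN : N.Normal) (hD : D.Normal) (i : ℕ) :
    (LL A N D i).Normal := by
  induction i with
  | zero => exact hD
  | succ i ih =>
    rw [LL_succ]
    infer_instance

theorem A_le (hAD : A ≤ D) (i : ℕ) : A ≤ LL A N D i := by
  cases i with
  | zero => exact hAD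
  | succ i => exact le_sup_left

theorem comm_mem {i : ℕ} {x y : G} (hx : x ∈ LL A N D i) (hy : y ∈ N) :
    ⁅x, y⁆ ∈ LL A N D (i + 1) :=
  (le_sup_right : _ ≤ A ⊔ ⁅LL A N D i, N⁆) (Subgroup.commutator_mem_commutator hx hy)

theorem comm_mem' {i : ℕ} {x y : G} (hx : x ∈ LL A N D i) (hy : y ∈ N) :
    ⁅y, x⁆ ∈ LL A N D (i + 1) := by
  rw [← commutatorElement_inv]
  exact (LL A N D (i + 1)).inv_mem (comm_mem hx hy)

theorem LL_step (hA : A.Normal) (hN : N.Normal) (hD : D.Normal) (hAD : A ≤ D) (i : ℕ) :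
    LL A N D (i + 1) ≤ LL A N D i := by
  have := LL_normal hA hN hD i
  rw [LL_succ]
  exact sup_le (A_le hAD i) (Subgroup.commutator_le_left _ _)

theorem LL_le (hA : A.Normal) (hN : N.Normal) (hD : D.Normal) (hAD : A ≤ D) (i : ℕ) :
    LL A N D i ≤ D := by
  induction i with
  | zero => exact le_rfl
  | succ i ih => exact (LL_step hA hN hD hAD i).trans ih

theorem LL_lcs (hA : A.Normal) (hDN : D ≤ N) (i : ℕ) :
    LL A N D i ≤ A ⊔ N.lowerCentralSeries i := by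
  induction i with
  | zero => exact hDN.trans le_sup_right
  | succ i ih =>
    rw [LL_succ]
    refine sup_le le_sup_left ?_
    rw [Subgroup.commutator_le]
    intro g hg n hn
    obtain ⟨a, ha, k, hk, rfl⟩ := Subgroup.mem_sup_of_normal_left.1 (ih hg)
    have h1 : ⁅a * k, n⁆ = a * ⁅k, n⁆ * a⁻¹ * ⁅a, n⁆ := by
      simp only [commutatorElement_def]
      group
    have h2 : ⁅a, n⁆ ∈ A := by
      rw [commutatorElement_def, mul_assoc, mul_assoc]
      refine A.mul_mem ha ?_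
      have := hA.conj_mem a⁻¹ (A.inv_mem ha) n
      rwa [mul_assoc] at this
    have h3 : ⁅k, n⁆ ∈ N.lowerCentralSeries (i + 1) :=
      Subgroup.commutator_mem_commutator hk hn
    rw [h1]
    have ha' : a ∈ A ⊔ N.lowerCentralSeries (i + 1) := (le_sup_left : A ≤ _) ha
    have h2' : ⁅a, n⁆ ∈ A ⊔ N.lowerCentralSeries (i + 1) := (le_sup_left : A ≤ _) h2
    have h3' : ⁅k, n⁆ ∈ A ⊔ N.lowerCentralSeries (i + 1) := (le_sup_right : _ ≤ A ⊔ _) h3
    exact mul_mem (mul_mem (mul_mem ha' h3') (inv_mem ha')) h2'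

/-- one step of the extension -/
theorem step (hA : A.Normal) (hN : N.Normal) (hDn : D.Normal) (hAD : A ≤ D)
    (hD : ∀ x, x ∈ D ↔ x ∈ N ∧ X x = 1) {n : G} (hn : n ∈ N) (hX : X n ≠ 1) (i : ℕ)
    (h : Ad X A (LL A N D (i + 1)) F b) : ∃ b', Ad X A (LL A N D i) F b' := by
  have hLD := fun j => LL_le hA hN hDn hAD (N := N) j
  have hLn := fun j => LL_normal hA hN hDn (N := N) j
  have hDN : ∀ {x}, x ∈ D → x ∈ N := fun hx => ((hD _).1 hx).1
  have hX1 : ∀ {x}, x ∈ D → X x = 1 := fun hx => ((hD _).1 hx).2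
  have hn1 : X n - 1 ≠ 0 := sub_ne_zero.2 hX
  have hV : ∀ x ∈ LL A N D i, ∀ d ∈ D, b ⁅x, d⁆ = 0 := by
    intro x hx
    have hxD := hLD i hx
    have hadd : ∀ d ∈ D, ∀ d' ∈ D, b ⁅x, d * d'⁆ = b ⁅x, d⁆ + b ⁅x, d'⁆ := by
      intro d hd d' hd'
      have e1 : ⁅x, d * d'⁆ = ⁅x, d⁆ * (d * ⁅x, d'⁆ * d⁻¹) := by
        simp only [commutatorElement_def]
        group
      have e2 := comm_mem (A := A) (N := N) hx (hDN hd')
      rw [e1, h.add _ (comm_mem hx (hDN hd)) _ ((hLn (i + 1)).conj_mem _ e2 d), h.eqv _ _ e2,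
        hX1 hd, one_mul]
    have heqv : ∀ d ∈ D, b ⁅x, n * d * n⁻¹⁆ = X n * b ⁅x, d⁆ := by
      intro d hd
      have hl : ⁅x⁻¹, n⁻¹⁆ ∈ LL A N D (i + 1) :=
        comm_mem ((LL A N D i).inv_mem hx) (N.inv_mem hn)
      have e1 : ⁅x, n * d * n⁻¹⁆ =
          n * (x * ⁅⁅x⁻¹, n⁻¹⁆, d⁆ * x⁻¹ * ⁅x, d⁆) * n⁻¹ := by
        simp only [commutatorElement_def]
        group
      have e2 : ⁅⁅x⁻¹, n⁻¹⁆, d⁆ ∈ LL A N D (i + 1) :=
        LL_step hA hN hDn hAD (i + 1) (comm_mem hl (hDN hd))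
      have e3 := comm_mem (A := A) (N := N) hx (hDN hd)
      have e4 : b ⁅⁅x⁻¹, n⁻¹⁆, d⁆ = 0 := by
        have e5 : ⁅⁅x⁻¹, n⁻¹⁆, d⁆ = ⁅x⁻¹, n⁻¹⁆ * (d * ⁅x⁻¹, n⁻¹⁆⁻¹ * d⁻¹) := by
          rw [commutatorElement_def ⁅x⁻¹, n⁻¹⁆ d]
          group
        have e6 := (LL A N D (i + 1)).inv_mem hl
        rw [e5, h.add _ hl _ ((hLn (i + 1)).conj_mem _ e6 d), h.eqv _ _ e6, hX1 hd, one_mul,
          h.inv hl, add_neg_cancel]
      rw [e1, h.eqv _ _ (mul_mem ((hLn (i + 1)).conj_mem _ e2 x) e3),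
        h.add _ ((hLn (i + 1)).conj_mem _ e2 x) _ e3, h.eqv _ _ e2, e4, mul_zero, zero_add]
    have hdown : ∀ k ≤ i + 1, ∀ d ∈ LL A N D (i + 1 - k), b ⁅x, d⁆ = 0 := by
      intro k
      induction k with
      | zero =>
        intro _ d hd
        rw [Nat.sub_zero] at hd
        have e1 : ⁅x, d⁆ = x * d * x⁻¹ * d⁻¹ := rfl
        rw [e1, h.add _ ((hLn (i + 1)).conj_mem _ hd x) _ ((LL A N D (i + 1)).inv_mem hd),
          h.eqv _ _ hd, hX1 hxD, one_mul, h.inv hd, add_neg_cancel]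
      | succ k ih =>
        intro hk d hd
        have e0 : i + 1 - k = (i + 1 - (k + 1)) + 1 := by omega
        have e1 : ⁅n, d⁆ ∈ LL A N D (i + 1 - k) := by
          rw [e0]
          exact comm_mem' hd hn
        have e2 := ih (by omega) _ e1
        have e3 : n * d * n⁻¹ = ⁅n, d⁆ * d := by
          simp only [commutatorElement_def]
          group
        have hdD := hLD _ hd
        have e4 := heqv d hdD
        rw [e3, hadd _ (hLD _ e1) _ hdD, e2, zero_add] at e4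
        have e5 : (X n - 1) * b ⁅x, d⁆ = 0 := by linear_combination -e4
        exact (mul_eq_zero.1 e5).resolve_left hn1
    intro d hd
    refine hdown (i + 1) le_rfl d ?_
    rw [Nat.sub_self]
    exact hd
  have hV' : ∀ x ∈ LL A N D i, ∀ d ∈ D, b ⁅d, x⁆ = 0 := by
    intro x hx d hd
    rw [← commutatorElement_inv, h.inv (comm_mem hx (hDN hd)), hV x hx d hd, neg_zero]
  have hm : ∀ x ∈ LL A N D i, ∀ m ∈ N, (X n - 1) * b ⁅m, x⁆ = (X m - 1) * b ⁅n, x⁆ := by
    intro x hx m hm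
    have hu : ⁅m⁻¹, n⁻¹⁆ ∈ D := by
      rw [hD]
      refine ⟨?_, ?_⟩
      · rw [commutatorElement_def]
        exact mul_mem (mul_mem (mul_mem (inv_mem hm) (inv_mem hn)) (inv_mem (inv_mem hm)))
          (inv_mem (inv_mem hn))
      · rw [commutatorElement_def]
        have e : m⁻¹ * n⁻¹ * m⁻¹⁻¹ * n⁻¹⁻¹ = m⁻¹ * (n⁻¹ * (m * n)) := by group
        have em : X m⁻¹ * X m = 1 := by rw [← map_mul, inv_mul_cancel, map_one]
        have en : X n⁻¹ * X n = 1 := by rw [← map_mul, inv_mul_cancel, map_one]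
        rw [e, map_mul, map_mul, map_mul]
        linear_combination X n⁻¹ * X n * em + en
    have c1 := comm_mem' (A := A) (D := D) hx hm
    have c2 := comm_mem' (A := A) (D := D) hx hn
    have c3 := comm_mem' (A := A) (D := D) hx (hDN hu)
    have e1 : ⁅m * n, x⁆ = (m * ⁅n, x⁆ * m⁻¹) * ⁅m, x⁆ := by
      simp only [commutatorElement_def]
      group
    have e2 : ⁅m * n, x⁆ = (n * m) * ⁅⁅m⁻¹, n⁻¹⁆, x⁆ * (n * m)⁻¹ *
        ((n * ⁅m, x⁆ * n⁻¹) * ⁅n, x⁆) := by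
      simp only [commutatorElement_def]
      group
    have f1 : b ⁅m * n, x⁆ = X m * b ⁅n, x⁆ + b ⁅m, x⁆ := by
      rw [e1, h.add _ ((hLn (i + 1)).conj_mem _ c2 m) _ c1, h.eqv _ _ c2]
    have f2 : b ⁅m * n, x⁆ = X n * b ⁅m, x⁆ + b ⁅n, x⁆ := by
      rw [e2, h.add _ ((hLn (i + 1)).conj_mem _ c3 (n * m)) _
        (mul_mem ((hLn (i + 1)).conj_mem _ c1 n) c2), h.eqv _ _ c3, hV' x hx _ hu, mul_zero,
        zero_add, h.add _ ((hLn (i + 1)).conj_mem _ c1 n) _ c2, h.eqv _ _ c1]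
    linear_combination f1 - f2
  refine ⟨fun x => b ⁅n, x⁆ / (X n - 1), ?_, ?_, ?_⟩
  · intro x hx y hy
    have e1 : ⁅n, x * y⁆ = ⁅n, x⁆ * (x * ⁅n, y⁆ * x⁻¹) := by
      simp only [commutatorElement_def]
      group
    have c1 := comm_mem' (A := A) (D := D) hx hn
    have c2 := comm_mem' (A := A) (D := D) hy hn
    rw [e1, h.add _ c1 _ ((hLn (i + 1)).conj_mem _ c2 x), h.eqv _ _ c2, hX1 (hLD i hx), one_mul,
      add_div]
  · intro g x hx
    have e1 : ⁅n, g * x * g⁻¹⁆ = g * ⁅g⁻¹ * n * g, x⁆ * g⁻¹ := by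
      simp only [commutatorElement_def]
      group
    have hg : g⁻¹ * n * g ∈ N := by
      have := hN.conj_mem n hn g⁻¹
      rwa [inv_inv] at this
    have c1 := comm_mem' (A := A) (D := D) hx hg
    have e2 := hm x hx _ hg
    have e3 : X (g⁻¹ * n * g) = X n := by
      have eg : X g⁻¹ * X g = 1 := by rw [← map_mul, inv_mul_cancel, map_one]
      rw [map_mul, map_mul]
      linear_combination X n * eg
    rw [e3] at e2
    have e4 : b ⁅g⁻¹ * n * g, x⁆ = b ⁅n, x⁆ := mul_left_cancel₀ hn1 e2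
    rw [e1, h.eqv _ _ c1, e4, mul_div_assoc]
  · intro a ha
    have ha' : a ∈ LL A N D (i + 1) := A_le hAD _ ha
    have e1 : ⁅n, a⁆ = n * a * n⁻¹ * a⁻¹ := rfl
    rw [e1, h.add _ ((hLn (i + 1)).conj_mem _ ha' n) _ ((LL A N D (i + 1)).inv_mem ha'),
      h.eqv _ _ ha', h.inv ha', h.ext a ha]
    field_simp
    ring

end

theorem aff : Pool.Agent.Y552.CT.S_AFF.{u} := by
  intro G _ A hA f χ N hN c n hf hχ hAN hc hn hχn
  classical
  set F : G → ℂ := fun a => if h : a ∈ A then f (Additive.ofMul ⟨a, h⟩) else 0 with hF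
  have hFA : ∀ (a : G) (ha : a ∈ A), F a = f (Additive.ofMul ⟨a, ha⟩) := fun a ha => dif_pos ha
  have hFadd : ∀ x ∈ A, ∀ y ∈ A, F (x * y) = F x + F y := by
    intro x hx y hy
    rw [hFA _ (A.mul_mem hx hy), hFA x hx, hFA y hy, ← map_add]
    rfl
  have hFeqv : ∀ (g : G), ∀ x ∈ A, F (g * x * g⁻¹) = χ g * F x := by
    intro g x hx
    have h1 := DFunLike.congr_fun (hχ g) (Additive.ofMul ⟨x, hx⟩)
    rw [ac_apply, inv_inv] at h1
    rw [hFA _ (hA.conj_mem x hx g), hFA x hx]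
    exact h1
  obtain ⟨a₀, ha₀⟩ : ∃ a : A, f (Additive.ofMul a) ≠ 0 := by
    by_contra hcon
    push Not at hcon
    exact hf (AddMonoidHom.ext fun a => hcon (Additive.toMul a))
  have hF0 : F a₀ ≠ 0 := by rw [hFA _ a₀.2]; exact ha₀
  have hmul : ∀ g h, χ (g * h) = χ g * χ h := by
    intro g h
    have e1 := hFeqv (g * h) a₀ a₀.2
    have e2 : g * h * a₀ * (g * h)⁻¹ = g * (h * a₀ * h⁻¹) * g⁻¹ := by group
    rw [e2, hFeqv g _ (hA.conj_mem _ a₀.2 h), hFeqv h _ a₀.2, ← mul_assoc] at e1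
    exact (mul_right_cancel₀ hF0 e1).symm
  have hone : χ 1 = 1 := by
    have e1 := hFeqv 1 a₀ a₀.2
    rw [one_mul, inv_one, mul_one] at e1
    have e2 : χ 1 * F a₀ = 1 * F a₀ := by rw [one_mul]; exact e1.symm
    exact mul_right_cancel₀ hF0 e2
  let X : G →* ℂ := { toFun := χ, map_one' := hone, map_mul' := hmul }
  have hXχ : ∀ g, X g = χ g := fun _ => rfl
  have hFinv : ∀ x ∈ A, F x⁻¹ = -F x := by
    intro x hx
    have h0 : F 1 = 0 := by
      have h1 := hFadd 1 A.one_mem 1 A.one_mem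
      rw [mul_one] at h1
      simpa using h1
    have h1 := hFadd x hx x⁻¹ (A.inv_mem hx)
    rw [mul_inv_cancel, h0] at h1
    exact eq_neg_of_add_eq_zero_right h1.symm
  have hXA : ∀ a ∈ A, X a = 1 := by
    intro a ha
    have e1 := hFeqv a a₀ a₀.2
    rw [hFadd _ (A.mul_mem ha a₀.2) _ (A.inv_mem ha), hFadd _ ha _ a₀.2, hFinv a ha] at e1
    have e2 : χ a * F a₀ = 1 * F a₀ := by rw [← e1]; ring
    exact mul_right_cancel₀ hF0 e2
  set D : Subgroup G := N ⊓ X.ker with hDdef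
  have hD : ∀ x, x ∈ D ↔ x ∈ N ∧ X x = 1 := fun x => by
    rw [hDdef, Subgroup.mem_inf, MonoidHom.mem_ker]
  have hDn : D.Normal := by
    rw [hDdef]
    infer_instance
  have hAD : A ≤ D := fun a ha => (hD a).2 ⟨hAN ha, hXA a ha⟩
  have hDN : D ≤ N := inf_le_left
  have hLA : LL A N D c ≤ A := (LL_lcs hA hDN c).trans (sup_le le_rfl hc)
  have hbase : Ad X A (LL A N D c) F F :=
    ⟨fun x hx y hy => hFadd x (hLA hx) y (hLA hy), fun g x hx => hFeqv g x (hLA hx),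
      fun _ _ => rfl⟩
  have hall : ∀ k ≤ c, ∃ b, Ad X A (LL A N D (c - k)) F b := by
    intro k
    induction k with
    | zero => exact fun _ => ⟨F, hbase⟩
    | succ k ih =>
      intro hk
      obtain ⟨b, hb⟩ := ih (by omega)
      have e : c - k = (c - (k + 1)) + 1 := by omega
      rw [e] at hb
      exact step hA hN hDn hAD hD hn hχn _ hb
  obtain ⟨b, hb⟩ := hall c le_rfl
  rw [Nat.sub_self] at hb
  change Ad X A D F b at hb
  have hn1 : 1 - χ n ≠ 0 := sub_ne_zero.2 hχn.symm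
  have hcD : ∀ g : G, ⁅g, n⁆ ∈ D := by
    intro g
    rw [hD]
    refine ⟨?_, ?_⟩
    · rw [commutatorElement_def]
      exact mul_mem (hN.conj_mem n hn g) (inv_mem hn)
    · rw [commutatorElement_def]
      have eg : X g * X g⁻¹ = 1 := by rw [← map_mul, mul_inv_cancel, map_one]
      have en : X n * X n⁻¹ = 1 := by rw [← map_mul, mul_inv_cancel, map_one]
      rw [map_mul, map_mul, map_mul]
      linear_combination X n * X n⁻¹ * eg + en
  refine ⟨fun g => b ⁅g, n⁆ / (1 - χ n), ?_, ?_⟩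
  · intro g h
    have e1 : ⁅g * h, n⁆ = (g * ⁅h, n⁆ * g⁻¹) * ⁅g, n⁆ := by
      simp only [commutatorElement_def]
      group
    simp only
    rw [e1, hb.add _ (hDn.conj_mem _ (hcD h) g) _ (hcD g), hb.eqv _ _ (hcD h), hXχ]
    field_simp
    ring
  · intro a ha
    have e1 : ⁅a, n⁆ = a * (n * a⁻¹ * n⁻¹) := by
      simp only [commutatorElement_def]
      group
    have ha' := hAD ha
    simp only
    rw [e1, hb.add _ ha' _ (hDn.conj_mem _ (inv_mem ha') n), hb.eqv _ _ (inv_mem ha'),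
      hb.inv ha', hb.ext a ha, hXχ, hFA a ha]
    field_simp
    ring

end Pool.Agent.Y888.CT2
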